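import Pool.Agent.N214.CP.Stm

/-!
# Project CP, leaf BASE: the smallest algebraically closed subfield over which a multi-valued map is
defined

The first part is copied from `Pool/Agent/N111/FT/Homs.lean`, `Pool/Agent/N133/CC1.lean`,
`Pool/Agent/N111/GG/Core.lean` and `Pool/Agent/N95/PR/Desc.lean`.
-/

set_option autoImplicit false
set_option linter.unusedSectionVars false
set_option linter.overlappingInstances false

open Module IntermediateField

namespace Pool.Agent.N966.CP

open Pool.Agent.N214.CP

section alg

variable {k A B : Type} [Field k] [Field A] [Field B] [Algebra k A] [Algebra k B]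

/-- images under homomorphisms of fields -/
theorem alg_map_iff (φ : A →ₐ[k] B) (S : Set A) (x : A) :
    IsAlgebraic (adjoin k (φ '' S)) (φ x) ↔ IsAlgebraic (adjoin k S) x := by
  rw [← IntermediateField.adjoin_map]
  exact isAlgebraic_ringHom_iff_of_comp_eq (equivMap (adjoin k S) φ) φ φ.injective rfl

/-- the field of the elements which are algebraic over the field generated by a set -/
def aclo (k : Type) [Field k] {A : Type} [Field A] [Algebra k A] (S : Set A) :
    IntermediateField k A := (algebraicClosure (adjoin k S) A).restrictScalars k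

theorem mem_aclo {S : Set A} {x : A} : x ∈ aclo k S ↔ IsAlgebraic (adjoin k S) x :=
  mem_algebraicClosure_iff

theorem subset_aclo (S : Set A) : S ⊆ aclo k S := fun x hx =>
  mem_aclo.2 (isAlgebraic_algebraMap (⟨x, subset_adjoin k S hx⟩ : adjoin k S))

/-- the field is algebraically closed -/
theorem aclo_closed {S : Set A} {x : A} (h : IsAlgebraic (aclo k S) x) : x ∈ aclo k S := by
  have h1 : IsAlgebraic (algebraicClosure (adjoin k S) A) x := h
  exact mem_aclo.2 (h1.restrictScalars (adjoin k S))

theorem aclo_le {S T : Set A} (h : S ⊆ aclo k T) : aclo k S ≤ aclo k T := by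
  intro x hx
  rw [mem_aclo] at hx
  have h1 : adjoin k S ≤ aclo k T := adjoin_le_iff.2 h
  apply aclo_closed
  let _ : Algebra (adjoin k S) (aclo k T) := (IntermediateField.inclusion h1).toRingHom.toAlgebra
  have : IsScalarTower (adjoin k S) (aclo k T) A := IsScalarTower.of_algebraMap_eq fun x => rfl
  exact hx.extendScalars (IntermediateField.inclusion h1).toRingHom.injective

theorem aclo_mono {S T : Set A} (h : S ⊆ T) : aclo k S ≤ aclo k T :=
  aclo_le fun _ hx => subset_aclo T (h hx)

theorem map_mem_aclo_iff (φ : A →ₐ[k] B) (S : Set A) (x : A) :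
    φ x ∈ aclo k (φ '' S) ↔ x ∈ aclo k S := by
  rw [mem_aclo, mem_aclo]
  exact alg_map_iff φ S x

end alg

section stable

variable {k L A : Type} [Field k] [Field L] [Field A] [Algebra k L] [Algebra k A] [Algebra L A]
  [IsScalarTower k L A]

/-- the elements of a field which are stable under all automorphisms are algebraic over the
elements from the base -/
theorem alg_of_stable [Normal L A] {N : IntermediateField k A}
    (hstab : ∀ (σ : A ≃ₐ[L] A) (x : A), x ∈ N → σ x ∈ N) {x : A} (hx : x ∈ N) :
    IsAlgebraic (N.comap (IsScalarTower.toAlgHom k L A)) x := by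
  classical
  have hint : IsIntegral L x := Normal.isIntegral inferInstance x
  have hsp : (Polynomial.map (algebraMap L A) (minpoly L x)).Splits := Normal.splits inferInstance x
  have hmon : (minpoly L x).Monic := minpoly.monic hint
  -- the coefficients are in `N`
  have hl : (minpoly L x).map (algebraMap L A) ∈ Polynomial.lifts (algebraMap N A) := by
    rw [hsp.eq_prod_roots_of_monic (hmon.map _)]
    refine Subsemiring.multiset_prod_mem _ _ ?_
    intro q hq
    obtain ⟨a, ha, rfl⟩ := Multiset.mem_map.1 hq
    have h1 : Polynomial.aeval a (minpoly L x) = 0 := by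
      rw [← Polynomial.aeval_map_algebraMap A a]
      rw [Polynomial.mem_roots'] at ha
      simpa [Polynomial.aeval_def] using ha.2
    obtain ⟨σ, hσ⟩ := (minpoly.exists_algEquiv_of_root' (K := L) (L := A) (x := a) (y := x)
      (Algebra.IsAlgebraic.isAlgebraic x) h1)
    have h2 : a ∈ N := by
      rw [← hσ]
      exact hstab σ x hx
    refine ⟨Polynomial.X - Polynomial.C ⟨a, h2⟩, ?_⟩
    simp only [Polynomial.coe_mapRingHom, Polynomial.map_sub, Polynomial.map_X, Polynomial.map_C]
    rfl
  have hl2 : minpoly L x ∈ Polynomial.lifts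
      (algebraMap (N.comap (IsScalarTower.toAlgHom k L A)) L) := by
    rw [Polynomial.lifts_iff_coeff_lifts] at hl ⊢
    intro i
    obtain ⟨c, hc⟩ := hl i
    rw [Polynomial.coeff_map] at hc
    refine ⟨⟨(minpoly L x).coeff i, ?_⟩, rfl⟩
    change algebraMap L A ((minpoly L x).coeff i) ∈ N
    rw [← hc]
    exact c.2
  obtain ⟨Q, hQ, -, hQm⟩ := Polynomial.lifts_and_natDegree_eq_and_monic hl2 hmon
  have hI : IsIntegral (N.comap (IsScalarTower.toAlgHom k L A)) x := by
    refine ⟨Q, hQm, ?_⟩
    rw [← Polynomial.aeval_def, ← Polynomial.aeval_map_algebraMap L x, hQ]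
    exact minpoly.aeval L x
  exact hI.isAlgebraic

end stable

section descend

variable {k L : Type} [Field k] [CharZero k] [Field L] [Algebra k L]

/-- the minimal polynomials over a field and over an algebraically closed subfield -/
theorem minpoly_lift {L₀ : IntermediateField k L} (hcl : ∀ z : L, IsAlgebraic L₀ z → z ∈ L₀)
    {K : Type} [Field K] [Algebra L K] {θ : K} (hθ : IsIntegral L₀ θ) :
    (minpoly L₀ θ).map (algebraMap L₀ L) = minpoly L θ := by
  have h1 : minpoly L θ ∣ (minpoly L₀ θ).map (algebraMap L₀ L) :=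
    minpoly.dvd_map_of_isScalarTower L₀ L θ
  have hθL : IsIntegral L θ := hθ.tower_top
  have h2 := integralClosure.mem_lifts_of_monic_of_dvd_map L (minpoly.monic hθ)
    (minpoly.monic hθL) h1
  have h3 : minpoly L θ ∈ Polynomial.lifts (algebraMap L₀ L) := by
    rw [Polynomial.lifts_iff_coeff_lifts] at h2 ⊢
    intro i
    obtain ⟨c, hc⟩ := h2 i
    refine ⟨⟨(minpoly L θ).coeff i, hcl _ ?_⟩, rfl⟩
    rw [← hc]
    exact (show IsIntegral L₀ (c : L) from c.2).isAlgebraic
  obtain ⟨q, hq, -, hqm⟩ := Polynomial.lifts_and_natDegree_eq_and_monic h3 (minpoly.monic hθL)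
  have h4 : Polynomial.aeval θ q = 0 := by
    have h5 : Polynomial.aeval θ (q.map (algebraMap L₀ L)) = 0 := by
      rw [hq]
      exact minpoly.aeval L θ
    rwa [Polynomial.aeval_map_algebraMap] at h5
  have h5 : minpoly L₀ θ ∣ q := minpoly.dvd L₀ θ h4
  have h6 : (minpoly L₀ θ).map (algebraMap L₀ L) ∣ minpoly L θ := by
    rw [← hq]
    exact Polynomial.map_dvd _ h5
  exact (Polynomial.eq_of_monic_of_associated ((minpoly.monic hθ).map _) (minpoly.monic hθL)
    (associated_of_dvd_dvd h6 h1))

end descend

section

variable {K L A : Type} [Field K] [Field L] [Field A] [Algebra K L] [Algebra K A] [Algebra L A]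
  [IsScalarTower K L A]

/-- the elements of `L` which are algebraic over the field generated by the set -/
def base (K L : Type) {A : Type} [Field K] [Field L] [Field A] [Algebra K L] [Algebra K A]
    [Algebra L A] [IsScalarTower K L A] (S : Set A) : IntermediateField K L :=
  (aclo K S).comap (IsScalarTower.toAlgHom K L A)

theorem mem_base {S : Set A} {z : L} : z ∈ base K L S ↔ algebraMap L A z ∈ aclo K S := Iff.rfl

theorem base_closed {S : Set A} {x : L} (h : IsAlgebraic (base K L S) x) : x ∈ base K L S := by
  rw [mem_base]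
  apply aclo_closed
  let f : base K L S →+* aclo K S :=
    { toFun := fun y => ⟨algebraMap L A y, y.2⟩
      map_one' := Subtype.ext (map_one _)
      map_mul' := fun a b => Subtype.ext (map_mul _ _ _)
      map_zero' := Subtype.ext (map_zero _)
      map_add' := fun a b => Subtype.ext (map_add _ _ _) }
  exact h.ringHom_of_comp_eq f (algebraMap L A) f.injective rfl

theorem stable_of {S : Set A} (hS : ∀ (σ : A ≃ₐ[L] A), ∀ z ∈ S, σ z ∈ aclo K S)
    (σ : A ≃ₐ[L] A) (x : A) (hx : x ∈ aclo K S) : σ x ∈ aclo K S := by
  have h1 := (map_mem_aclo_iff ((σ : A →ₐ[L] A).restrictScalars K) S x).2 hx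
  refine aclo_le ?_ h1
  rintro _ ⟨z, hz, rfl⟩
  exact hS σ z hz

theorem alg_base [Normal L A] {S : Set A} (hS : ∀ (σ : A ≃ₐ[L] A), ∀ z ∈ S, σ z ∈ aclo K S)
    {x : A} (hx : x ∈ aclo K S) : IsAlgebraic (base K L S) x :=
  alg_of_stable (N := aclo K S) (fun σ x hx => stable_of hS σ x hx) hx

/-- **The degree over an algebraically closed subfield.** -/
theorem finrank_closed [CharZero K] {L₀ : IntermediateField K L}
    (hcl : ∀ z : L, IsAlgebraic L₀ z → z ∈ L₀) {S : Set A}
    [FiniteDimensional L₀ (adjoin L₀ S)] [FiniteDimensional L (adjoin L S)] :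
    finrank L₀ (adjoin L₀ S) ≤ finrank L (adjoin L S) := by
  have hL : CharZero L := charZero_of_injective_algebraMap (algebraMap K L).injective
  have hL₀ : CharZero L₀ := charZero_of_injective_algebraMap (algebraMap K L₀).injective
  obtain ⟨θ, hθ⟩ := Field.exists_primitive_element L₀ (adjoin L₀ S)
  have hθi : IsIntegral L₀ θ := Algebra.IsIntegral.isIntegral θ
  have hθi' : IsIntegral L₀ (θ : A) := hθi.map (adjoin L₀ S).val
  have hmin : minpoly L₀ (θ : A) = minpoly L₀ θ := by
    have := minpoly.algHom_eq (A := L₀) (adjoin L₀ S).val (adjoin L₀ S).val.injective θ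
    exact this
  have hlift := minpoly_lift (k := K) hcl hθi'
  have h1 : Module.finrank L₀ (adjoin L₀ S) = (minpoly L₀ θ).natDegree := by
    rw [← IntermediateField.adjoin.finrank hθi, hθ, IntermediateField.finrank_top']
  rw [h1, ← hmin, ← Polynomial.natDegree_map (algebraMap L₀ L), hlift]
  have h2 : adjoin L₀ S ≤ (adjoin L S).restrictScalars L₀ := by
    rw [adjoin_le_iff]
    exact subset_adjoin L S
  have h3 : (θ : A) ∈ adjoin L S := h2 θ.2
  have h4 := minpoly.algHom_eq (A := L) (adjoin L S).val (adjoin L S).val.injective ⟨θ, h3⟩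
  have h5 : minpoly L (θ : A) = minpoly L (⟨θ, h3⟩ : adjoin L S) := h4
  rw [h5]
  exact minpoly.natDegree_le _

end

/-- elements algebraic over a subfield of `L` -/
theorem mem_aclo_of_alg {K L A : Type} [Field K] [Field L] [Field A] [Algebra K L] [Algebra K A]
    [Algebra L A] [IsScalarTower K L A] (R : IntermediateField K L) {x : A}
    (h : IsAlgebraic R x) : x ∈ aclo K ((IsScalarTower.toAlgHom K L A) '' (R : Set L)) := by
  rw [mem_aclo]
  let f : R →+* adjoin K ((IsScalarTower.toAlgHom K L A) '' (R : Set L)) :=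
    { toFun := fun y => ⟨algebraMap L A y, subset_adjoin K _ ⟨y, y.2, rfl⟩⟩
      map_one' := Subtype.ext (map_one _)
      map_mul' := fun a b => Subtype.ext (map_mul _ _ _)
      map_zero' := Subtype.ext (map_zero _)
      map_add' := fun a b => Subtype.ext (map_add _ _ _) }
  exact h.ringHom_of_comp_eq f (RingHom.id A) f.injective rfl

theorem alg_of_mem_aclo {K L A : Type} [Field K] [Field L] [Field A] [Algebra K L] [Algebra K A]
    [Algebra L A] [IsScalarTower K L A] (R : IntermediateField K L) {y : L}
    (h : algebraMap L A y ∈ aclo K ((IsScalarTower.toAlgHom K L A) '' (R : Set L))) :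
    IsAlgebraic R y := by
  rw [mem_aclo] at h
  have h1 := (alg_map_iff (IsScalarTower.toAlgHom K L A) (R : Set L) y).1 h
  rw [IntermediateField.adjoin_self] at h1
  exact h1

/-- **BASE** -/
theorem BASE : S_BASE := by
  intro L K E _ _ _ _ _ _ _ _ _ _ _ _
  classical
  have hL : CharZero L := charZero_of_injective_algebraMap (algebraMap ℂ L).injective
  let A := AlgebraicClosure K
  have halg : Algebra.IsAlgebraic L A := Algebra.IsAlgebraic.trans L K A
  have hac : IsAlgClosure L A := ⟨inferInstance, halg⟩
  have hnor : Normal L A := IsAlgClosure.normal L A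
  let S : Set A := {x | ∃ (σ : A ≃ₐ[L] A) (z : E), x = σ (algebraMap E A z)}
  have hS : ∀ (σ : A ≃ₐ[L] A), ∀ z ∈ S, σ z ∈ aclo ℂ S := by
    rintro σ _ ⟨τ, z, rfl⟩
    exact subset_aclo S ⟨σ * τ, z, rfl⟩
  have hES : ∀ z : E, algebraMap E A z ∈ S := fun z => ⟨1, z, rfl⟩
  let N : IntermediateField ℂ L := base ℂ L S
  have hNT : IsScalarTower N K A := IsScalarTower.of_algebraMap_eq fun x =>
    IsScalarTower.algebraMap_apply L K A x
  have hNalg : ∀ z : E, IsAlgebraic N (algebraMap E K z) := by
    intro z
    have h1 : IsAlgebraic N (algebraMap E A z) := alg_base hS (subset_aclo S (hES z))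
    rw [IsScalarTower.algebraMap_apply E K A] at h1
    exact (isAlgebraic_algebraMap_iff (algebraMap K A).injective).1 h1
  have hfin : FiniteDimensional N (adjoin N (Set.range (algebraMap E K))) := by
    obtain ⟨s, hs⟩ := IntermediateField.fg_top ℂ E
    have h1 : adjoin N (Set.range (algebraMap E K)) =
        adjoin N ((algebraMap E K) '' (s : Set E)) := by
      apply le_antisymm
      · rw [adjoin_le_iff]
        rintro _ ⟨z, rfl⟩
        have hz : z ∈ adjoin ℂ (s : Set E) := by
          rw [hs]
          exact IntermediateField.mem_top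
        have h2 : algebraMap E K z ∈ (adjoin ℂ (s : Set E)).map (IsScalarTower.toAlgHom ℂ E K) :=
          ⟨z, hz, rfl⟩
        rw [IntermediateField.adjoin_map] at h2
        have h3 : adjoin ℂ ((IsScalarTower.toAlgHom ℂ E K) '' (s : Set E)) ≤
            (adjoin N ((algebraMap E K) '' (s : Set E))).restrictScalars ℂ :=
          adjoin_le_iff.2 (subset_adjoin N _)
        exact h3 h2
      · exact adjoin.mono _ _ _ (Set.image_subset_range _ _)
    rw [h1]
    have : Finite ((algebraMap E K) '' (s : Set E)) := (s.finite_toSet.image _).to_subtype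
    refine IntermediateField.finiteDimensional_adjoin ?_
    rintro _ ⟨z, -, rfl⟩
    exact (hNalg z).isIntegral
  refine ⟨N, fun z hz => base_closed hz, hNalg, hfin, ?_, ?_⟩
  · exact finrank_closed (K := ℂ) (L₀ := N) fun z hz => base_closed hz
  · intro R hR hRalg z hz
    have hRT : IsScalarTower R K A := IsScalarTower.of_algebraMap_eq fun x =>
      IsScalarTower.algebraMap_apply L K A x
    have h1 : S ⊆ aclo ℂ ((IsScalarTower.toAlgHom ℂ L A) '' (R : Set L)) := by
      rintro _ ⟨σ, w, rfl⟩
      apply mem_aclo_of_alg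
      have h2 : IsAlgebraic R (algebraMap E A w) := by
        rw [IsScalarTower.algebraMap_apply E K A]
        exact (isAlgebraic_algebraMap_iff (algebraMap K A).injective).2 (hRalg w)
      exact h2.algHom ((σ : A →ₐ[L] A).restrictScalars R)
    exact alg_of_mem_aclo R (aclo_le h1 (mem_base.1 hz))

end Pool.Agent.N966.CP

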